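import Pool.Agent.Helper46.LP.Fin2

/-!
MP_274814_nt, Q1: `π` together with the values of the Gamma function, all levels.
-/

set_option autoImplicit false

namespace Pool.Agent.Helper46.LP.T

open Pool.Agent.Helper24.LRDefs

/-- The numbers `π` and `Γ (a / q)`, `a ∈ S`, are algebraically independent over the rational
numbers. -/
def Indep (q : ℕ) (S : Finset ℕ) : Prop :=
  AlgebraicIndependent ℚ
    (fun o : Option S => o.elim Real.pi fun a : S => Real.Gamma ((a : ℕ) / q))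

/-- Odd distributions on `ℚ / ℤ` with real values. -/
def OddDist (f : ℚ → ℝ) : Prop :=
  (∀ x, f (x + 1) = f x) ∧ (∀ x, f (-x) = - f x) ∧
    ∀ N : ℕ, 0 < N → ∀ x, ∑ k ∈ Finset.range N, f ((x + k) / N) = f x

/-- For every prime `p ∣ q`, `-1` is a power of `p` modulo the largest divisor of `q` prime
to `p`. -/
def GoodLevel (q : ℕ) : Prop :=
  ∀ p : ℕ, p.Prime → p ∣ q → ∃ k : ℕ, (p : ZMod (q / p ^ q.factorization p)) ^ k = -1

/-- The number of odd characters modulo `q` whose primitive character is not `1` at any prime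
dividing `q`. -/
noncomputable def g (q : ℕ) : ℕ :=
  Nat.card {χ : DirichletCharacter ℂ q //
    χ.Odd ∧ ∀ p : ℕ, p.Prime → p ∣ q → χ.primitiveCharacter (p : ℕ) ≠ 1}

/-- There is a number `N` (`0`, which divides no level, or at least `3`) such that at the levels
`q > 2` not divisible by `N` the field `Fall q` of `π` and all `Γ (a / q)` has degree `1 + φ(q) / 2`,
the field `F q` of the problem has degree `1 + g q`, and all relations between `π` and the
`Γ (a / q)` are the standard ones; at the levels divisible by `N` the first degree is `φ(q) / 2`; Q1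
holds at `q` exactly if `N` does not divide `q` and `q` is a good level.  Moreover `π` and `Γ (x)`
are algebraically independent for all rational `x` in `(0, 1/2)` with at most one exception (`1/6`
and `1/3` counted once). -/
theorem result (hall : ∀ q : ℕ, 2 < q → Pool.Agent.Helper24.LU.HasInd q (q.totient / 2)) :
    (∃ N : ℕ, N ≠ 1 ∧ N ≠ 2 ∧
      (∀ q : ℕ, 2 < q → ¬ N ∣ q →
        Algebra.trdeg ℚ (Fall q) = ((1 + q.totient / 2 : ℕ) : Cardinal) ∧
        Algebra.trdeg ℚ (F q) = ((1 + g q : ℕ) : Cardinal) ∧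
        ∀ S : Finset ℕ, (∀ a ∈ S, 1 ≤ a ∧ a < q) → (Indep q S ↔
          ∀ m : ℕ → ℤ, (∀ f : ℚ → ℝ, OddDist f → ∑ a ∈ S, (m a : ℝ) * f ((a : ℚ) / q) = 0) →
            ∀ a ∈ S, m a = 0)) ∧
      (∀ q : ℕ, 2 < q → N ∣ q →
        Algebra.trdeg ℚ (Fall q) = ((q.totient / 2 : ℕ) : Cardinal)) ∧
      (∀ q : ℕ, 2 < q →
        (((1 + q.totient / 2 : ℕ) : Cardinal) ≤ Algebra.trdeg ℚ (F q) ↔
          ¬ N ∣ q ∧ GoodLevel q))) ∧
    (∀ x y : ℚ, 0 < x → x < y → y < 1 / 2 → ¬ (x = 1 / 6 ∧ y = 1 / 3) →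
      AlgebraicIndependent ℚ ![Real.pi, Real.Gamma (x : ℝ)] ∨
        AlgebraicIndependent ℚ ![Real.pi, Real.Gamma (y : ℝ)]) := by
  obtain ⟨⟨N, h1, h2, h3, h4, h5⟩, h6⟩ := Pool.Agent.Helper46.LP.main hall
  refine ⟨⟨N, h1, h2, fun q hq hN => ?_, h4, h5⟩, h6⟩
  obtain ⟨a1, a2, a3⟩ := h3 q hq hN
  refine ⟨a1, a2, fun S hS => (a3 S hS).trans (forall_congr' fun m => ?_)⟩
  exact ⟨fun h h' => h fun f hf => h' f ⟨hf.per, hf.odd, hf.mul⟩,
    fun h h' => h fun f hf => h' f ⟨hf.1, hf.2.1, hf.2.2⟩⟩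

end Pool.Agent.Helper46.LP.T
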